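import Pool.Agent.Q189.SS.Spacing

/-!
# A weakly mixing system where `ω_{𝒩_T}(x)` consists of two fixed points

The product of a spacing shift with the full shift. The point `x` is `0^∞` in the first coordinate
and has long blocks of zeros and ones in the second coordinate; the forbidden differences of the
spacing shift cover longer and longer neighbourhoods of the switching times.
-/

set_option autoImplicit false

open Set Filter Topology Pool.Agent.Q189.SS

namespace Pool.Agent.Results.MP_8a65de_an.TwoFixedPoints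

section Defs

variable {Y : Type*} [TopologicalSpace Y]

/-- The set `N_T(U,V)`. -/
def NN (T : Y → Y) (U V : Set Y) : Set ℕ := {n | (U ∩ T^[n] ⁻¹' V).Nonempty}

/-- The family `𝒩_T`. -/
def NFam (T : Y → Y) : Set (Set ℕ) :=
  {A | ∃ U V : Set Y, IsOpen U ∧ U.Nonempty ∧ IsOpen V ∧ V.Nonempty ∧ NN T U V ⊆ A}

/-- The set `ω_{𝒩_T}(x)`. -/
def omegaN (T : Y → Y) (x : Y) : Set Y := ⋂ F ∈ NFam T, closure {y | ∃ i ∈ F, y = T^[i] x}

/-- The usual omega-limit set. -/
def omega (T : Y → Y) (x : Y) : Set Y := ⋂ n ≥ 1, closure {y | ∃ i ≥ n, y = T^[i] x}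

/-- Weak mixing: `N_{T×T}(W₁,W₂)` is non-empty for all non-empty open sets. -/
def WeaklyMixing (T : Y → Y) : Prop :=
  ∀ W1 W2 : Set (Y × Y), IsOpen W1 → W1.Nonempty → IsOpen W2 → W2.Nonempty →
    (NN (Prod.map T T) W1 W2).Nonempty

end Defs

/-- The forbidden differences: neighbourhoods of the powers of four. -/
def E : Set ℕ := {e | ∃ k, 4 ^ (k + 1) ≤ e + k ∧ e ≤ 4 ^ (k + 1) + k}

theorem lt_pow (k : ℕ) : k + 3 < 4 ^ (k + 1) := by
  induction k with
  | zero => norm_num
  | succ k ih => rw [pow_succ]; omega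

theorem pow_mono {j k : ℕ} (h : j ≤ k) : 4 ^ (j + 1) ≤ 4 ^ (k + 1) :=
  Nat.pow_le_pow_right (by norm_num) (by omega)

theorem gap (k e : ℕ) (h1 : 4 ^ (k + 1) + k < e) (h2 : e + (k + 1) < 4 * 4 ^ (k + 1)) : e ∉ E := by
  rintro ⟨j, hj1, hj2⟩
  rcases le_or_gt j k with h | h
  · have := pow_mono h
    omega
  · obtain ⟨d, rfl⟩ : ∃ d, j = k + 1 + d := ⟨j - (k + 1), by omega⟩
    have h3 : 4 * 4 ^ (k + 1) + d ≤ 4 ^ (k + 1 + d + 1) := by
      have h4 : 4 ^ (k + 1 + d + 1) = 4 * 4 ^ (k + 1) * 4 ^ d := by ring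
      have h5 : d < 4 ^ d := Nat.lt_pow_self (by norm_num)
      rw [h4]
      have h6 : 0 < 4 ^ (k + 1) := by positivity
      nlinarith
    omega

theorem gapAt (k L n : ℕ) (h1 : L + 4 ^ (k + 1) + k < n) (h2 : n + L + (k + 1) < 4 * 4 ^ (k + 1)) :
    GapAt E n L := ⟨by omega, fun e _ _ => gap k e (by omega) (by omega)⟩

/-- The second coordinate of the point `x`. -/
def z : ℕ → Bool := fun i => decide (Nat.log 4 i % 2 = 1)

theorem z_block (k i : ℕ) (h1 : 4 ^ (k + 1) ≤ i) (h2 : i < 4 * 4 ^ (k + 1)) :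
    z i = decide ((k + 1) % 2 = 1) := by
  have h : Nat.log 4 i = k + 1 := by
    rw [Nat.log_eq_iff (Or.inl (by omega))]
    exact ⟨h1, by rw [pow_succ]; omega⟩
  unfold z
  rw [h]

theorem z_switch (i : ℕ) (h : z i ≠ z (i + 1)) : ∃ k, i + 1 = 4 ^ (k + 1) := by
  unfold z at h
  have h1 : Nat.log 4 i ≤ Nat.log 4 (i + 1) := Nat.log_mono_right (by omega)
  have h2 : Nat.log 4 i ≠ Nat.log 4 (i + 1) := fun h' => h (by rw [h'])
  have h3 : 4 ^ (Nat.log 4 (i + 1)) ≤ i + 1 := Nat.pow_log_le_self 4 (by omega)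
  have h4 : i < 4 ^ (Nat.log 4 i + 1) := Nat.lt_pow_succ_log_self (by norm_num) i
  have h5 : 4 ^ (Nat.log 4 i + 1) ≤ 4 ^ (Nat.log 4 (i + 1)) :=
    Nat.pow_le_pow_right (by norm_num) (by omega)
  exact ⟨Nat.log 4 i, by omega⟩

/-- The space. -/
abbrev X : Type := Sp E × (ℕ → Bool)

/-- The map. -/
def T : X → X := Prod.map (TSp E) shift

theorem T_continuous : Continuous T := (TSp_continuous E).prodMap shift_continuous

theorem T_surjective : Function.Surjective T := by
  refine (TSp_surjective E).prodMap ?_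
  intro y
  exact ⟨fun i => y (i - 1), by funext i; show y (i + 1 - 1) = y i; rw [Nat.add_sub_cancel]⟩

theorem T_iter (n : ℕ) (w : X) : T^[n] w = ((TSp E)^[n] w.1, shift^[n] w.2) := by
  unfold T
  rw [Prod.map_iterate]
  rfl

/-- Hitting times of the system contain the middles of large gaps. -/
theorem hit (U V : Set X) (hU : IsOpen U) (hUne : U.Nonempty) (hV : IsOpen V)
    (hVne : V.Nonempty) : ∃ L : ℕ, ∀ L' ≥ L, ∀ n, GapAt E n L' → n ∈ NN T U V := by
  obtain ⟨u, hu⟩ := hUne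
  obtain ⟨v, hv⟩ := hVne
  obtain ⟨U1, U2, hU1, hU2, hu1, hu2, hUU⟩ := isOpen_prod_iff.1 hU u.1 u.2 hu
  obtain ⟨V1, V2, hV1, hV2, hv1, hv2, hVV⟩ := isOpen_prod_iff.1 hV v.1 v.2 hv
  obtain ⟨L1, h1⟩ := hit_of_gap hU1 hV1 ⟨_, hu1⟩ ⟨_, hv1⟩
  obtain ⟨L2, h2⟩ := exists_cyl hU2 hu2
  refine ⟨L1 + L2, fun L hL n hn => ?_⟩
  obtain ⟨p, hp, hp'⟩ := h1 L (by omega) n hn
  refine ⟨(p, fun i => if i < n then u.2 i else v.2 (i - n)), hUU ⟨hp, ?_⟩, ?_⟩
  · refine h2 _ fun i hi => ?_
    have := hn.1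
    show (if i < n then u.2 i else v.2 (i - n)) = u.2 i
    rw [if_pos (by omega)]
  · show T^[n] _ ∈ V
    rw [T_iter]
    refine hVV ⟨hp', ?_⟩
    have : shift^[n] (fun i => if i < n then u.2 i else v.2 (i - n)) = v.2 := by
      funext i
      rw [shift_iter, if_neg (by omega), Nat.add_sub_cancel]
    show shift^[n] (fun i => if i < n then u.2 i else v.2 (i - n)) ∈ V2
    rw [this]
    exact hv2

theorem weaklyMixing : WeaklyMixing T := by
  intro U V hU ⟨u, hu⟩ hV ⟨v, hv⟩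
  obtain ⟨U1, U2, hU1, hU2, hu1, hu2, hUU⟩ := isOpen_prod_iff.1 hU u.1 u.2 hu
  obtain ⟨V1, V2, hV1, hV2, hv1, hv2, hVV⟩ := isOpen_prod_iff.1 hV v.1 v.2 hv
  obtain ⟨L1, h1⟩ := hit U1 V1 hU1 ⟨_, hu1⟩ hV1 ⟨_, hv1⟩
  obtain ⟨L2, h2⟩ := hit U2 V2 hU2 ⟨_, hu2⟩ hV2 ⟨_, hv2⟩
  set k := 2 * (L1 + L2) with hk
  have hlt := lt_pow k
  have hgap : GapAt E (2 * 4 ^ (k + 1) + L1 + L2) (L1 + L2) := gapAt k _ _ (by omega) (by omega)
  obtain ⟨p, hp, hp'⟩ := h1 (L1 + L2) (by omega) _ hgap
  obtain ⟨q, hq, hq'⟩ := h2 (L1 + L2) (by omega) _ hgap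
  refine ⟨2 * 4 ^ (k + 1) + L1 + L2, (p, q), hUU ⟨hp, hq⟩, ?_⟩
  show (Prod.map T T)^[2 * 4 ^ (k + 1) + L1 + L2] (p, q) ∈ V
  rw [Prod.map_iterate]
  exact hVV ⟨hp', hq'⟩

/-- The point `x`. -/
def x0 : X := (zeroSp E, z)

/-- The two fixed points. -/
def fp (b : Bool) : X := (zeroSp E, fun _ => b)

theorem zero_iter (n : ℕ) : (TSp E)^[n] (zeroSp E) = zeroSp E := by
  apply Subtype.ext
  funext i
  rw [TSp_iter_apply]
  rfl

theorem fp_mem (b : Bool) : fp b ∈ omegaN T x0 := by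
  refine mem_iInter₂.2 fun F hF => ?_
  obtain ⟨U, V, hU, hUne, hV, hVne, hUV⟩ := hF
  obtain ⟨L, hL⟩ := hit U V hU hUne hV hVne
  refine mem_closure_iff.2 fun G hG hpG => ?_
  obtain ⟨G1, G2, hG1, hG2, hp1, hp2, hGG⟩ := isOpen_prod_iff.1 hG (fp b).1 (fp b).2 hpG
  obtain ⟨L0, hL0⟩ := exists_cyl hG2 hp2
  -- choose the parity of the block
  obtain ⟨k, hk1, hk2⟩ : ∃ k : ℕ, 2 * (L + L0) ≤ k ∧ decide ((k + 1) % 2 = 1) = b := by
    cases b with
    | false => exact ⟨2 * (L + L0) + 1, by omega, by rw [decide_eq_false_iff_not]; omega⟩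
    | true => exact ⟨2 * (L + L0), by omega, by rw [decide_eq_true_iff]; omega⟩
  have hlt := lt_pow k
  set n := 2 * 4 ^ (k + 1) + (L + L0) with hn
  have hgap : GapAt E n (L + L0) := gapAt k _ _ (by omega) (by omega)
  refine ⟨T^[n] x0, hGG ?_, n, hUV (hL _ (by omega) n hgap), rfl⟩
  rw [T_iter]
  refine ⟨?_, hL0 _ fun i hi => ?_⟩
  · show (TSp E)^[n] (zeroSp E) ∈ G1
    rw [zero_iter]
    exact hp1
  · show shift^[n] z i = b
    rw [shift_iter, z_block k _ (by omega) (by omega), hk2]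

theorem mem_fp (w : X) (hw : w ∈ omegaN T x0) : w = fp (w.2 0) := by
  have hw' := mem_iInter₂.1 hw
  -- the test families
  have test : ∀ M : ℕ, ∀ G : Set X, IsOpen G → w ∈ G → ∃ i : ℕ, M < i ∧ i ∉ E ∧ T^[i] x0 ∈ G := by
    intro M G hG hwG
    let U : Set X := {p | (p.1 : ℕ → Bool) 0 = true ∧ ∀ i < M + 1, p.2 i = false}
    let V : Set X := {p | (p.1 : ℕ → Bool) 0 = true ∧ p.2 0 = true}
    have hc0 : Continuous (fun p : X => (p.1 : ℕ → Bool) 0) :=
      (continuous_apply 0).comp (continuous_subtype_val.comp continuous_fst)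
    have h0 : IsOpen {p : X | (p.1 : ℕ → Bool) 0 = true} :=
      (isOpen_discrete ({true} : Set Bool)).preimage hc0
    have hU : IsOpen U := by
      have h1 : IsOpen {p : X | ∀ i < M + 1, p.2 i = false} :=
        (isOpen_cyl (fun _ => false) (M + 1)).preimage continuous_snd
      exact h0.inter h1
    have hV : IsOpen V := by
      have hc1 : Continuous (fun p : X => p.2 0) := (continuous_apply 0).comp continuous_snd
      exact h0.inter ((isOpen_discrete ({true} : Set Bool)).preimage hc1)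
    have hone : (fun i => decide (i = 0)) ∈ Sp E := by
      intro i j hij h1 h2
      have h3 : j = 0 := by simpa using h2
      omega
    have hUne : U.Nonempty := ⟨(⟨_, hone⟩, fun _ => false), by simp [U]⟩
    have hVne : V.Nonempty := ⟨(⟨_, hone⟩, fun _ => true), by simp [V]⟩
    obtain ⟨_, hv, i, hi, rfl⟩ := mem_closure_iff.1 (hw' _ ⟨U, V, hU, hUne, hV, hVne, Subset.rfl⟩) G hG hwG
    obtain ⟨p, hp1, hp2⟩ := hi
    have hp3 : T^[i] p ∈ V := hp2
    rw [T_iter] at hp3
    have hi1 : M < i := by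
      by_contra hle
      have h1 := hp1.2 i (by omega)
      have h2 : shift^[i] p.2 0 = true := hp3.2
      rw [shift_iter, zero_add, h1] at h2
      exact absurd h2 (by simp)
    refine ⟨i, hi1, ?_, hv⟩
    have h3 : ((TSp E)^[i] p.1 : ℕ → Bool) 0 = true := hp3.1
    rw [TSp_iter_apply, zero_add] at h3
    have := p.1.2 0 i (by omega) hp1.1 h3
    rwa [Nat.sub_zero] at this
  -- first coordinate
  have h1 : w.1 = zeroSp E := by
    by_contra hne
    obtain ⟨i, -, -, hi⟩ := test 0 {p | p.1 ≠ zeroSp E}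
      ((isOpen_ne).preimage continuous_fst) hne
    apply hi
    rw [T_iter]
    exact zero_iter i
  -- second coordinate
  have h2 : ∀ a : ℕ, w.2 a = w.2 (a + 1) := by
    intro a
    by_contra hne
    have hc : Continuous (fun p : X => (p.2 a, p.2 (a + 1))) :=
      ((continuous_apply a).comp continuous_snd).prodMk ((continuous_apply (a + 1)).comp continuous_snd)
    obtain ⟨i, hi1, hi2, hi3⟩ := test (4 ^ (a + 1 + 1)) {p : X | p.2 a ≠ p.2 (a + 1)}
      ((isOpen_discrete {q : Bool × Bool | q.1 ≠ q.2}).preimage hc) hne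
    rw [T_iter] at hi3
    have h3 : shift^[i] z a ≠ shift^[i] z (a + 1) := hi3
    rw [shift_iter, shift_iter, show a + 1 + i = a + i + 1 by ring] at h3
    obtain ⟨k, hk⟩ := z_switch _ h3
    apply hi2
    refine ⟨k, ?_, by omega⟩
    have h4 : a + 1 ≤ k := by
      by_contra hlt
      have := pow_mono (show k ≤ a + 1 by omega)
      omega
    omega
  have h3 : ∀ a : ℕ, w.2 a = w.2 0 := by
    intro a
    induction a with
    | zero => rfl
    | succ a ih => rw [← h2 a, ih]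
  refine Prod.ext h1 (funext fun a => ?_)
  exact h3 a

/-- The set of the two fixed points is not an omega-limit set. -/
theorem ne_omega (y : X) : omegaN T x0 ≠ omega T y := by
  intro heq
  -- the closed set where the first two symbols of the second coordinate differ
  have hc : Continuous (fun p : X => (p.2 0, p.2 1)) :=
    ((continuous_apply 0).comp continuous_snd).prodMk ((continuous_apply 1).comp continuous_snd)
  have hC : IsClosed {p : X | p.2 0 ≠ p.2 1} :=
    (isClosed_discrete {q : Bool × Bool | q.1 ≠ q.2}).preimage hc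
  by_cases hinf : ∀ n : ℕ, ∃ i ≥ n, (T^[i] y).2 0 ≠ (T^[i] y).2 1
  · obtain ⟨w, hw⟩ := IsCompact.nonempty_iInter_of_sequence_nonempty_isCompact_isClosed
      (fun n : ℕ => closure {v | ∃ i ≥ n, v = T^[i] y} ∩ {p : X | p.2 0 ≠ p.2 1})
      (fun n => inter_subset_inter_left _ (closure_mono fun v ⟨i, hi, hv⟩ => ⟨i, by omega, hv⟩))
      (fun n => by
        obtain ⟨i, hi, h⟩ := hinf n
        exact ⟨T^[i] y, subset_closure ⟨i, hi, rfl⟩, h⟩)
      ((isClosed_closure.inter hC).isCompact) (fun n => isClosed_closure.inter hC)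
    rw [mem_iInter] at hw
    have h1 : w ∈ omega T y := mem_iInter₂.2 fun n _ => (hw n).1
    rw [← heq] at h1
    have h2 := mem_fp w h1
    have h3 := (hw 0).2
    rw [h2] at h3
    exact h3 rfl
  · push Not at hinf
    obtain ⟨n, hn⟩ := hinf
    have hconst : ∀ i ≥ n, (T^[i] y).2 0 = (T^[n] y).2 0 := by
      intro i hi
      induction i, hi using Nat.le_induction with
      | base => rfl
      | succ i hi ih =>
        rw [← ih, hn i hi, T_iter, T_iter]
        show shift^[i + 1] y.2 0 = shift^[i] y.2 1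
        rw [shift_iter, shift_iter, show 0 + (i + 1) = 1 + i by omega]
    have hc0 : Continuous (fun p : X => p.2 0) := (continuous_apply 0).comp continuous_snd
    have hcl : IsClosed {p : X | p.2 0 = (T^[n] y).2 0} :=
      (isClosed_discrete ({(T^[n] y).2 0} : Set Bool)).preimage hc0
    have hall : ∀ w ∈ omega T y, w.2 0 = (T^[n] y).2 0 := by
      intro w hw
      have h1 := mem_iInter₂.1 hw (n + 1) (by omega)
      have h2 : closure {v | ∃ i ≥ n + 1, v = T^[i] y} ⊆ {p : X | p.2 0 = (T^[n] y).2 0} := by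
        refine closure_minimal ?_ hcl
        rintro _ ⟨i, hi, rfl⟩
        exact hconst i (by omega)
      exact h2 h1
    have h1 := hall _ (heq ▸ fp_mem true)
    have h2 := hall _ (heq ▸ fp_mem false)
    rw [← h2] at h1
    exact absurd h1 (by simp [fp])

theorem not_isolated (w : X) : ¬ IsOpen ({w} : Set X) := by
  intro h
  obtain ⟨G1, G2, hG1, hG2, hp1, hp2, hGG⟩ := isOpen_prod_iff.1 h w.1 w.2 rfl
  obtain ⟨L, hL⟩ := exists_cyl hG2 hp2
  have h1 : (w.1, fun i => if i < L then w.2 i else !(w.2 i)) ∈ ({w} : Set X) :=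
    hGG ⟨hp1, hL _ fun i hi => by simp only [if_pos hi]⟩
  have h2 := congrFun (congrArg Prod.snd (mem_singleton_iff.1 h1)) L
  simp at h2

/-- **Negative answer to Q1.** There are a weakly mixing system `(X,T)` and a point `x` such that
`ω_{𝒩_T}(x)` is not the omega-limit set of any point. -/
theorem result : ∃ (X : Type) (_ : MetricSpace X) (_ : CompactSpace X) (_ : Nontrivial X)
    (T : X → X), (∀ w : X, ¬ IsOpen ({w} : Set X)) ∧ Continuous T ∧ Function.Surjective T ∧
    WeaklyMixing T ∧ ∃ x : X, ∀ y : X, omegaN T x ≠ omega T y := by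
  let _ : MetricSpace X := TopologicalSpace.metrizableSpaceMetric X
  refine ⟨X, inferInstance, inferInstance, ?_, T, not_isolated, T_continuous, T_surjective,
    weaklyMixing, x0, ne_omega⟩
  exact ⟨fp true, fp false, fun h => by
    have := congrFun (congrArg Prod.snd h) 0
    simp [fp] at this⟩

end Pool.Agent.Results.MP_8a65de_an.TwoFixedPoints
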